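import Pool.Agent.W2helper14.TF.R

/-!
# Toeplitz generation on true polyanalytic Fock spaces (MP_3a72d9_an, Q1)

`TP.gm` is the Gaussian measure `(1/π) exp(-|z|²) dz` on `ℂ`, `TP.H = L²(ℂ, gm)`, `TP.M a` the
multiplication by the bounded Borel function `a`. `TP.IsBand A`: the distances of Borel sets
`K, L` with `M_{1_L} A M_{1_K} ≠ 0` are bounded; `TP.BDO` is the norm closure of the set of band
operators.

`TP.Fock j` is the true polyanalytic Fock space `F²_(j+1)`: the `f` in `L²(ℂ, gm)` with
`f(z) = (1/j!) e^{|z|²} ∂_z^j (e^{-|z|²} g(z))` for an entire `g`.

For a closed subspace `F` of `L²(ℂ, gm)`, `TP.toep F a` is the Toeplitz operator `g ↦ P_F (a g)` on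
`F` (`TP.Sp F` is `F` as a Hilbert space), `TP.IsBandDom F T` says that `T P_F` is in `BDO`, and
`TP.genC (TP.toepSet F)` is the C*-algebra generated by all `toep F a` with bounded `a`: the
intersection of all norm closed sets of operators containing them which are closed under sums,
scalar multiples, products and adjoints. `twoLim (toepSetC F)` is the norm closure of the set of
finite sums of products of two Toeplitz operators with bounded continuous symbols. `Gen F T` says
`IsBandDom F T ↔ T ∈ genC (toepSet F)` and `IsBandDom F T ↔ T ∈ twoLim (toepSetC F)`.

The theorem: for `F = F²_(k)`, `k ≥ 1`, the band-dominated operators on `F` are exactly the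
C*-algebra generated by the Toeplitz operators with bounded symbols, and also exactly the norm
limits of finite sums of products of two Toeplitz operators with bounded continuous symbols. So the
answer to Q1 is yes. (For Q2 see the file PolyanalyticFock.)

Idea of the proof. After the unitary map `f ↦ f π^(-1/2) e^{-|z|²/2}` to `L²(ℂ, dz)` the projection
onto `F` is `P = ∫ κ(y) V_y dy` with `κ(y) = (1/π) L(|y|²) e^{-|y|²/2}`, `L` the Laguerre polynomial
`L_j`, where the unitary operators `V_y` (translation by `y` times a phase) commute with the Weyl
operators `W_z`. For a band operator `B`, `P B P = ∫ M_{Γ(y)} V_y dy`, where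
`Γ(y)` is the function `z ↦ ⟪W_z κ, B W_z W_{-y} κ⟫`, which is bounded and continuous with
exponentially small sup norm for large `|y|`. Conjugation with a character `χ` multiplies `V_y` by
`χ(y)`, so `M_χ P M_χ⁻¹ = ∫ χ(y) κ(y) V_y dy`. The functions `χ κ` span a dense subspace of `L¹(ℂ)`, as
`κ ≠ 0` almost everywhere. Hence for `h` in `L¹(ℂ)` and a bounded continuous `c` the operator
`P (∫ h(y) M_c V_y dy) P` is a norm limit of linear combinations of the products
`P M_{cχ} P M_{χ⁻¹} P` of two Toeplitz operators, and so is `P B P = P (P B P) P`.
-/

set_option autoImplicit false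

namespace Pool.Agent.Results.MP_3a72d9_an.TruePolyanalyticFock

open TP Pool.Agent.W2helper14.TF

/-- On every true polyanalytic Fock space `F²_(j+1)` an operator is band-dominated iff it is in the
C*-algebra generated by the Toeplitz operators with bounded symbols, and iff it is a norm limit of
finite sums of products of two Toeplitz operators with bounded continuous symbols. -/
theorem result (j : ℕ) (T : Sp (Fock j) →L[ℂ] Sp (Fock j)) : Gen (Fock j) T :=
  final_form (Fock j) (fock_main j) T

end Pool.Agent.Results.MP_3a72d9_an.TruePolyanalyticFock
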